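import Pool.Agent.H94.LP3.M63
import Pool.Agent.H94.LP3.M82

/-!
# Plane systems of large virtual dimension with at most nine multiplicities of the order of `d`
-/

namespace Pool.Agent.H18.Sq

open MvPolynomial Finset Pool.Agent.H18.Fat Pool.Agent.H18.Iso Pool.Agent.H18.Pr Pool.Agent.H18.Ub Pool.Agent.H18.Cub

/-- At most eight arbitrary multiplicities, the others being at most `μ`. -/
theorem eight_med : ∃ K : ℕ, ∀ (k d μ : ℕ) (m : Fin k → ℕ) (J : Finset (Fin k)),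
    3 ≤ k → J.card ≤ 8 → (∀ i, i ∉ J → m i ≤ μ) →
    (((K + μ) * (d + 1) : ℕ) : ℤ) ≤ virt d m →
    (ForGeneralPoints 2 k fun p => ∃ F ∈ fatForms 2 d p m, ∀ i, IsolatedAt F (p i)) →
    ForGeneralPoints 2 k fun p => ImposesMaximalConditions 2 d p m := by
  classical
  obtain ⟨K, E, H⟩ := Pool.Agent.H74.BP.plane_T
  refine ⟨K + 1, fun k d μ m J hk hJ hμ hv hiso => ?_⟩
  obtain ⟨d', m', hcr, hdd, hle, hstd⟩ :=
    exists_standard hk d m (ne_zero_of_isolated (by omega) hiso)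
  have hvv := virt_eq_of_isolated hcr hiso
  rw [← hvv] at hv
  have hv1 : (((K + 1 + μ) * (d' + 1) : ℕ) : ℤ) ≤ virt d' m' := by
    refine le_trans ?_ hv
    exact_mod_cast Nat.mul_le_mul_left _ (by omega)
  have h2 := virt_le (d := d') m'
  have h3 := choose_two (d' + 2)
  have hd' : K + μ ≤ d' := by
    push_cast at h3 hv1
    by_contra hcon
    push Not at hcon
    have h4 : (d' : ℤ) + 1 ≤ K + μ := by exact_mod_cast hcon
    have h5 : (0 : ℤ) ≤ d' := Int.natCast_nonneg _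
    nlinarith only [h2, h3, hv1, hcon]
  refine maximal_of_cremona hcr hiso (H 1 le_rfl k d' μ m' J
    (fun i hi => (hle i).trans (hμ i hi)) hstd (by rw [one_pow, mul_one]; omega)
    (Or.inl ⟨hJ, Or.inr (Or.inl ⟨by rw [one_pow, mul_one]; omega, ?_⟩)⟩))
  rw [one_pow, mul_one]
  have h4 : ((∑ i ∈ univ.filter (fun i => i ∈ J ∨ 1 < m' i), (m' i + 1).choose 2 : ℕ) : ℤ) ≤
      ((d' + 2).choose 2 : ℤ) - virt d' m' := by
    unfold virt
    push_cast
    have : ∑ i ∈ univ.filter (fun i => i ∈ J ∨ 1 < m' i), ((m' i + 1).choose 2 : ℤ) ≤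
        ∑ i, ((m' i + 1).choose 2 : ℤ) :=
      sum_le_sum_of_subset_of_nonneg (subset_univ _) fun i _ _ => by positivity
    linarith
  have h5 : ((d' + 2).choose 2 : ℤ) - ((K + 1 + μ : ℕ) : ℤ) * (d' + 1) ≤
      ((d' - K - μ + 2).choose 2 : ℕ) := by
    have h6 := choose_two (d' - K - μ + 2)
    push_cast at h3 h6 ⊢
    have h7 : ((d' - K - μ : ℕ) : ℤ) = d' - K - μ := by omega
    rw [h7] at h6
    have h8 : (0 : ℤ) ≤ (d' : ℤ) - K - μ := by omega
    have h9 : (0 : ℤ) ≤ (K : ℤ) := Int.natCast_nonneg _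
    have h10 : (0 : ℤ) ≤ (μ : ℤ) := Int.natCast_nonneg _
    nlinarith only [hd', h3, h6, mul_nonneg (add_nonneg h9 h10) (add_nonneg h9 h10)]
  have h6 : ((∑ i ∈ univ.filter (fun i => i ∈ J ∨ 1 < m' i), (m' i + 1).choose 2 : ℕ) : ℤ) ≤
      ((d' - K - μ + 2).choose 2 : ℕ) := by
    push_cast at hv1 h5 ⊢
    push_cast at h4
    linarith only [hv1, h5, h4]
  exact_mod_cast h6

end Pool.Agent.H18.Sq
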